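import Pool.Agent.Helper30_Sph.Stmts

/-!
# SPH, module ANI: anisotropy of the generic diagonal form
-/

set_option autoImplicit false

open MvPolynomial

namespace Pool.Agent.Sph.H19

/-- module ANI -/
theorem ani : AniStmt := by
  intro V _ m c z hc h
  classical
  have : Fact (Nat.Prime 2) := ⟨Nat.prime_two⟩
  by_contra hz
  obtain ⟨f, hf⟩ : ∃ f, z f ≠ 0 := by
    by_contra hn
    push Not at hn
    exact hz (funext hn)
  obtain ⟨a, ha⟩ := MvPolynomial.ne_zero_iff.mp hf
  set e : (Fin m → V) → (V →₀ ℕ) := fun g => ∑ j, Finsupp.single (g j) 1 with he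
  have hX : ∀ g : Fin m → V, (∏ j, (X (g j) : MvPolynomial V (ZMod 2))) = monomial (e g) 1 := by
    intro g
    rw [he]
    simp only
    rw [MvPolynomial.monomial_sum_one]
    rfl
  have hev : ∀ (g : Fin m → V) (v : V), e g v = ∑ j, if g j = v then 1 else 0 := by
    intro g v
    rw [he]
    simp only
    rw [Finsupp.finsetSum_apply]
    refine Finset.sum_congr rfl fun j _ => ?_
    rw [Finsupp.single_apply]
  have h1 := congrArg (coeff (e f + 2 • a)) h
  rw [coeff_sum, coeff_zero, Finset.sum_eq_single f] at h1
  · rw [hX, coeff_monomial_mul, one_mul, ← expand_zmod, coeff_expand_smul _ (by norm_num)] at h1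
    exact ha h1
  · intro g _ hg
    by_cases hzg : z g = 0
    · rw [hzg]
      simp
    obtain ⟨j, hj⟩ : ∃ j, g j ≠ f j := by
      by_contra hn
      push Not at hn
      exact hg (funext hn)
    have hcf := hc f hf
    have hcg := hc g hzg
    have e1 : e f (g j) = 0 := by
      rw [hev, Finset.sum_eq_zero]
      intro i _
      rw [if_neg]
      intro hi
      have : i = j := by rw [← hcf i, hi, hcg j]
      rw [this] at hi
      exact hj hi.symm
    have e2 : e g (g j) = 1 := by
      rw [hev, Finset.sum_eq_single j]
      · rw [if_pos rfl]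
      · intro i _ hi
        rw [if_neg]
        intro h2
        apply hi
        rw [← hcg i, h2, hcg j]
      · intro h2
        exact absurd (Finset.mem_univ _) h2
    rw [hX, coeff_monomial_mul']
    split_ifs with hle
    · rw [one_mul, ← expand_zmod]
      apply coeff_expand_of_not_dvd (i := g j)
      have h3 := hle (g j)
      rw [e2, Finsupp.add_apply, e1, Finsupp.smul_apply] at h3
      rw [Finsupp.tsub_apply, Finsupp.add_apply, e1, e2, Finsupp.smul_apply]
      simp only [smul_eq_mul] at *
      omega
    · rfl
  · intro h2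
    exact absurd (Finset.mem_univ _) h2

end Pool.Agent.Sph.H19
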